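import Mathlib
import Pool.Agent.V11308.Leg

/-!
MP_2869d0_nt, Q1.  For every prime `p`, every positive integer `n` and every `x ∈ ℤ_p`,
`ν_p((1/n) ∑_{k<n} (2k+1)(-1)^k A_k(x)) ≥ min {ν_p(n), ν_p(4x-1)}`.
-/

namespace Pool.Agent.Results.MP_2869d0_nt.AperyQ1

open Finset Pool.Agent.V11308

variable (p : ℕ) [hp : Fact p.Prime]

/-- The Apery polynomials `A_n(x) = ∑_{k=0}^n C(n,k)^2 C(n+k,k)^2 x^k`. -/
noncomputable def A (n : ℕ) (x : ℚ_[p]) : ℚ_[p] :=
  ∑ k ∈ range (n + 1), (n.choose k : ℚ_[p]) ^ 2 * ((n + k).choose k : ℚ_[p]) ^ 2 * x ^ k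

/-- the `p`-adic valuation on `ℚ_p`, with `ν_p(0) = ⊤` -/
noncomputable abbrev ν (y : ℚ_[p]) : WithTop ℤ := Padic.addValuation y

lemma val_int (z : ℤ_[p]) : 0 ≤ ν p (z : ℚ_[p]) := by
  by_cases h : (z : ℚ_[p]) = 0
  · rw [ν, h, AddValuation.map_zero]; exact le_top
  · rw [ν, Padic.addValuation.apply h, PadicInt.valuation_coe]
    exact_mod_cast Nat.zero_le _

/-- Q1 for all primes `p`, all `n ≥ 1` and all `x ∈ ℤ_p`. -/
theorem result : ∀ (n : ℕ), 0 < n → ∀ x : ℤ_[p],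
    min (ν p (n : ℚ_[p])) (ν p (4 * (x : ℚ_[p]) - 1)) ≤
      ν p (1 / (n : ℚ_[p]) * ∑ k ∈ range n, (2 * (k : ℚ_[p]) + 1) * (-1) ^ k * A p k x) := by
  intro n hn x
  have hn0 : (n : ℚ_[p]) ≠ 0 := by exact_mod_cast hn.ne'
  have hsum : ∑ k ∈ range n, (2 * (k : ℚ_[p]) + 1) * (-1) ^ k * A p k x =
      n * Leg.H n (x : ℚ_[p]) := Leg.sum_A n (x : ℚ_[p])
  have hval : 1 / (n : ℚ_[p]) * ∑ k ∈ range n, (2 * (k : ℚ_[p]) + 1) * (-1) ^ k * A p k x =
      ((Leg.H n x : ℤ_[p]) : ℚ_[p]) := by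
    rw [hsum]
    have hH : ((Leg.H n x : ℤ_[p]) : ℚ_[p]) = Leg.H n (x : ℚ_[p]) := by
      unfold Leg.H Leg.g
      change PadicInt.Coe.ringHom _ = _
      simp only [map_sum, map_mul, map_pow, map_natCast, map_neg, map_one]
      rfl
    rw [hH]
    field_simp
  rw [hval]
  rcases eq_or_ne p 2 with h2 | h2
  · refine le_trans (min_le_right _ _) (le_trans ?_ (val_int p _))
    -- `4x - 1` is a unit
    subst h2
    have hu : ((4 * x - 1 : ℤ_[2]) : ℚ_[2]) = 4 * (x : ℚ_[2]) - 1 := by push_cast; rfl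
    have hnorm : ‖(4 * x - 1 : ℤ_[2])‖ = 1 := by
      rw [← PadicInt.isUnit_iff]
      have h4 : (4 * x - 1 : ℤ_[2]) = -(1 - 4 * x) := by ring
      rw [h4, IsUnit.neg_iff]
      have : (4 * x : ℤ_[2]) ∈ IsLocalRing.maximalIdeal ℤ_[2] := by
        rw [PadicInt.maximalIdeal_eq_span_p, Ideal.mem_span_singleton]
        exact ⟨2 * x, by push_cast; ring⟩
      exact IsLocalRing.isUnit_one_sub_self_of_mem_nonunits _
        ((IsLocalRing.mem_maximalIdeal _).mp this)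
    have hne : (4 * (x : ℚ_[2]) - 1) ≠ 0 := by
      intro h
      rw [← hu] at h
      have h0 : (4 * x - 1 : ℤ_[2]) = 0 := Subtype.ext h
      rw [h0] at hnorm
      simp at hnorm
    rw [ν, Padic.addValuation.apply hne]
    have hv : Padic.valuation (4 * (x : ℚ_[2]) - 1) = 0 := by
      have h1 : ‖(4 * (x : ℚ_[2]) - 1)‖ = 1 := by
        rw [← hu]; exact hnorm
      rw [Padic.norm_eq_zpow_neg_valuation hne] at h1
      have h22 : ((2 : ℕ) : ℝ) = 2 := by norm_num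
      have := (zpow_eq_one_iff_right₀ (a := ((2 : ℕ) : ℝ)) (by norm_num) (by norm_num)).mp h1
      omega
    rw [hv]
    exact le_rfl
  · have hunit : IsUnit (4 : ℤ_[p]) := by
      rw [PadicInt.isUnit_iff]
      by_contra hne
      have h := lt_of_le_of_ne (PadicInt.norm_le_one _) hne
      have h4 : (4 : ℤ_[p]) = ((4 : ℤ) : ℤ_[p]) := by norm_num
      rw [h4, PadicInt.norm_int_lt_one_iff_dvd] at h
      have h' : p ∣ 4 := by exact_mod_cast h
      have : p ∣ 2 := hp.out.dvd_of_dvd_pow (show p ∣ 2 ^ 2 by simpa using h')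
      exact h2 ((Nat.prime_dvd_prime_iff_eq hp.out Nat.prime_two).mp this)
    obtain ⟨u, hu⟩ := hunit
    obtain ⟨a, b, hab⟩ := Leg.H_mod n x (↑u⁻¹ : ℤ_[p]) (by rw [← hu]; exact u.mul_inv)
    have hcast : ((Leg.H n x : ℤ_[p]) : ℚ_[p]) =
        (n : ℚ_[p]) * (a : ℚ_[p]) + (4 * (x : ℚ_[p]) - 1) * (b : ℚ_[p]) := by
      rw [hab]; push_cast; rfl
    rw [hcast]
    refine le_trans ?_ (Padic.addValuation.map_add _ _)
    rw [Padic.addValuation.map_mul, Padic.addValuation.map_mul]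
    refine min_le_min ?_ ?_
    · exact le_add_of_nonneg_right (val_int p a)
    · exact le_add_of_nonneg_right (val_int p b)

end Pool.Agent.Results.MP_2869d0_nt.AperyQ1
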